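import Pool.Agent.U301.CF.Min

/-!
# MP_cf16d9_co: the excluded minors of `M'` are not only `U_{2,5}`, `U_{3,5}`, `F₇`, `F₇*`

`M'` is the class of the matroids which are regular or have the p-characteristic set
`{v ≥ 3, v ≠ 6}` of `U_{2,4}`.  The four matroids of the question are the excluded minors of the
class of ternary matroids, so that the question is whether `M'` is the class of ternary matroids.
It is not: the p-characteristic set of the non-Fano matroid `F₇⁻` contains only odd numbers.

If `log v` times the rank function of `F₇⁻` is entropic, the supports of the variables have `v`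
elements, and the two lines through the point `a + b + c` which contain `a` and `c` make the set of
the values of `a + b + c` a group of order `v`; if `v` is even, it contains an involution `t`, and
the two points `(t, t, t)` and `(0, 0, 0)` have the same values of `a + b`, `b + c`, `a + c`, which
form a basis.  Hence `4` is not in the p-characteristic set, `F₇⁻` is not in `M'`, and a minimal
minor of `F₇⁻` outside of `M'` is an excluded minor; no minor of `F₇⁻` is isomorphic to one of the
four matroids.
-/

set_option autoImplicit false

namespace Pool.Agent.Results.MP_cf16d9_co.NonFanoMinor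

open Pool.Agent.U301.CF

/-- The p-characteristic set of the non-Fano matroid `F₇⁻` contains only odd numbers, and some
excluded minor `N` of `M'`, a minor of `F₇⁻`, is not isomorphic to `U_{2,5}`, `U_{3,5}`, `F₇`,
`F₇*`. -/
theorem result :
    (∀ v ∈ pchar F7minus, Odd v) ∧
    ∃ (n : ℕ) (N : Mtd n), ExcludedMinor N ∧ IsMinor N F7minus ∧
      ¬ Iso N (uni 2 5) ∧ ¬ Iso N (uni 3 5) ∧ ¬ Iso N f7 ∧ ¬ Iso N f7dual := by
  refine ⟨fun v hv => odd_of_mem hv, ?_⟩
  obtain ⟨n, N, hN, hN'⟩ := exists_excluded F7minus four_not_mem
  exact ⟨n, N, hN', hN, no_u25 hN, no_u35 hN, no_f7 hN, no_f7dual hN⟩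

end Pool.Agent.Results.MP_cf16d9_co.NonFanoMinor
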